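import Pool.Agent.N912.MS.Stm
import Pool.Agent.W78.GA.Basic

/-! # Project MS, part MS11 (helper391): from polar cells to squares -/

set_option autoImplicit false

namespace Pool.Agent.N391.MS

open Finset Filter
open Pool.Agent.W78.GA (Qd nm ball ang tc mem_ball nm_castR norm_tc)
open Pool.Agent.N912.MS

theorem hD01 : (0 : ℤ) ^ 2 < 4 * 1 := by norm_num

theorem nmR (z : Gi) : (nm z : ℝ) = (z.re : ℝ) ^ 2 + (z.im : ℝ) ^ 2 := by
  rw [nm_castR hD01]
  push_cast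
  ring

theorem tc_eq (z : Gi) : tc z = ⟨(z.re : ℝ), (z.im : ℝ)⟩ := by
  unfold tc
  have h : Real.sqrt (4 * ((1 : ℤ) : ℝ) - ((0 : ℤ) : ℝ) ^ 2) = 2 := by
    rw [show (4 * ((1 : ℤ) : ℝ) - ((0 : ℤ) : ℝ) ^ 2) = 2 ^ 2 by push_cast; norm_num]
    exact Real.sqrt_sq (by norm_num)
  rw [h]
  push_cast
  congr 1
  · ring
  · ring

/-! ### The diameter of the cells -/

theorem exp_sub_le (a b : ℝ) : Real.exp a - Real.exp b ≤ Real.exp a * (a - b) := by
  have h1 := Real.add_one_le_exp (-(a - b))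
  have h2 : Real.exp b = Real.exp a * Real.exp (-(a - b)) := by
    rw [← Real.exp_add]
    congr 1
    ring
  rw [h2]
  nlinarith [Real.exp_pos a]

theorem abs_exp_sub (a b c δ : ℝ) (ha : a ≤ c) (hb : b ≤ c) (h : |a - b| ≤ δ) :
    |Real.exp a - Real.exp b| ≤ Real.exp c * δ := by
  have hδ : 0 ≤ δ := (abs_nonneg _).trans h
  have h' := abs_le.1 h
  rcases le_total b a with hab | hab
  · rw [abs_of_nonneg (by linarith [Real.exp_le_exp.2 hab])]
    refine (exp_sub_le a b).trans ?_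
    exact mul_le_mul (Real.exp_le_exp.2 ha) h'.2 (by linarith) (Real.exp_pos _).le
  · rw [abs_sub_comm, abs_of_nonneg (by linarith [Real.exp_le_exp.2 hab])]
    refine (exp_sub_le b a).trans ?_
    exact mul_le_mul (Real.exp_le_exp.2 hb) (by linarith) (by linarith) (Real.exp_pos _).le

theorem exp_I_sub (a b : ℝ) : ‖Complex.exp (a * Complex.I) - Complex.exp (b * Complex.I)‖ ≤
    |a - b| := by
  have h1 : Complex.exp (a * Complex.I) - Complex.exp (b * Complex.I) =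
      Complex.exp (b * Complex.I) * (Complex.exp (Complex.I * ((a - b : ℝ) : ℂ)) - 1) := by
    rw [mul_sub, mul_one, ← Complex.exp_add]
    congr 2
    push_cast
    ring
  rw [h1, norm_mul, Complex.norm_exp_ofReal_mul_I, one_mul]
  exact Real.norm_exp_I_mul_ofReal_sub_one_le

theorem floor_close (x y : ℝ) (h : ⌊x⌋ = ⌊y⌋) : |x - y| ≤ 1 := (Int.abs_sub_lt_one_of_floor_eq_floor h).le

theorem norm_exp_form (z : Gi) (hz : 1 ≤ nm z) :
    ‖tc z‖ = Real.exp (Real.log (nm z) / 2) := by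
  have h0 : (0 : ℝ) < nm z := by exact_mod_cast hz
  rw [norm_tc hD01, Real.sqrt_eq_rpow, Real.rpow_def_of_pos h0]
  congr 1
  ring

/-- the diameter of a cell -/
theorem diam (n : ℕ) (hn : 1 ≤ n) (X : ℝ) (hX : 0 < X) (u v : Gi) (hu : 1 ≤ nm u)
    (hv : 1 ≤ nm v) (huX : (nm u : ℝ) ≤ Real.exp 1 * X) (hvX : (nm v : ℝ) ≤ Real.exp 1 * X)
    (ha : aix n u = aix n v) (hl : lix n X u = lix n X v) :
    ‖tc u - tc v‖ ≤ 12 * Real.sqrt X / n := by
  have hn0 : (0 : ℝ) < n := by exact_mod_cast hn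
  have hu0 : (0 : ℝ) < nm u := by exact_mod_cast hu
  have hv0 : (0 : ℝ) < nm v := by exact_mod_cast hv
  have hπ := Real.pi_pos
  -- angles
  have h1 := floor_close _ _ ha
  have h2 : |ang u - ang v| ≤ 2 * Real.pi / n := by
    have e : (ang u + Real.pi) * n / (2 * Real.pi) - (ang v + Real.pi) * n / (2 * Real.pi) =
        (ang u - ang v) * (n / (2 * Real.pi)) := by ring
    rw [e, abs_mul, abs_of_pos (by positivity : (0:ℝ) < n / (2 * Real.pi))] at h1
    rw [le_div_iff₀ hn0]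
    have h3 : |ang u - ang v| * (n / (2 * Real.pi)) * (2 * Real.pi) = |ang u - ang v| * n := by
      field_simp
    nlinarith
  -- norms
  have h3 := floor_close _ _ hl
  have h4 : |Real.log (nm u) / 2 - Real.log (nm v) / 2| ≤ 1 / (2 * n) := by
    have e : n * (Real.log (nm u) - Real.log X) - n * (Real.log (nm v) - Real.log X) =
        (Real.log (nm u) / 2 - Real.log (nm v) / 2) * (2 * n) := by ring
    rw [e, abs_mul, abs_of_pos (by positivity : (0:ℝ) < 2 * n)] at h3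
    rw [le_div_iff₀ (by positivity)]
    exact h3
  set c : ℝ := Real.log (Real.exp 1 * X) / 2 with hc
  have hcu : Real.log (nm u) / 2 ≤ c := by
    rw [hc]
    have := Real.log_le_log hu0 huX
    linarith
  have hcv : Real.log (nm v) / 2 ≤ c := by
    rw [hc]
    have := Real.log_le_log hv0 hvX
    linarith
  have hec : Real.exp c = Real.sqrt (Real.exp 1) * Real.sqrt X := by
    rw [← Real.sqrt_mul (Real.exp_pos 1).le, Real.sqrt_eq_rpow,
      Real.rpow_def_of_pos (by positivity)]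
    congr 1
    rw [hc]
    ring
  have hsq : Real.sqrt (Real.exp 1) ≤ 1.65 := by
    rw [Real.sqrt_le_left (by norm_num)]
    have := Real.exp_one_lt_d9
    linarith
  have hXs : 0 < Real.sqrt X := Real.sqrt_pos.2 hX
  have h5 := abs_exp_sub _ _ c _ hcu hcv h4
  rw [← norm_exp_form u hu, ← norm_exp_form v hv] at h5
  have hvn : ‖tc v‖ ≤ Real.exp c := by
    rw [norm_exp_form v hv]
    exact Real.exp_le_exp.2 hcv
  have e1 : tc u - tc v = ((‖tc u‖ - ‖tc v‖ : ℝ) : ℂ) * Complex.exp (ang u * Complex.I) +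
      (‖tc v‖ : ℂ) * (Complex.exp (ang u * Complex.I) - Complex.exp (ang v * Complex.I)) := by
    conv_lhs => rw [← Complex.norm_mul_exp_arg_mul_I (tc u), ← Complex.norm_mul_exp_arg_mul_I (tc v)]
    unfold ang
    push_cast
    ring
  rw [e1]
  refine (norm_add_le _ _).trans ?_
  rw [norm_mul, norm_mul, Complex.norm_exp_ofReal_mul_I, mul_one, Complex.norm_real,
    Complex.norm_real, Real.norm_eq_abs, Real.norm_eq_abs, abs_norm]
  have h6 := exp_I_sub (ang u) (ang v)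
  have h7 : ‖tc v‖ * ‖Complex.exp (ang u * Complex.I) - Complex.exp (ang v * Complex.I)‖ ≤
      Real.exp c * (2 * Real.pi / n) :=
    mul_le_mul hvn (h6.trans h2) (norm_nonneg _) (Real.exp_pos _).le
  refine (add_le_add h5 h7).trans ?_
  rw [hec]
  have hπ2 := Real.pi_lt_d2
  have e2 : Real.sqrt (Real.exp 1) * Real.sqrt X * (1 / (2 * n)) +
      Real.sqrt (Real.exp 1) * Real.sqrt X * (2 * Real.pi / n) =
      (Real.sqrt (Real.exp 1) * (1 / 2 + 2 * Real.pi)) * Real.sqrt X / n := by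
    field_simp
  rw [e2]
  have h8 : Real.sqrt (Real.exp 1) * (1 / 2 + 2 * Real.pi) ≤ 12 := by
    have : 0 ≤ Real.sqrt (Real.exp 1) := Real.sqrt_nonneg _
    nlinarith
  gcongr

theorem diam_re (n : ℕ) (hn : 1 ≤ n) (X : ℝ) (hX : 0 < X) (D : ℕ) (hD : 12 * Real.sqrt X / n ≤ D)
    (u v : Gi) (hu : 1 ≤ nm u)
    (hv : 1 ≤ nm v) (huX : (nm u : ℝ) ≤ Real.exp 1 * X) (hvX : (nm v : ℝ) ≤ Real.exp 1 * X)
    (ha : aix n u = aix n v) (hl : lix n X u = lix n X v) :
    |u.re - v.re| ≤ D ∧ |u.im - v.im| ≤ D := by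
  have h := (diam n hn X hX u v hu hv huX hvX ha hl).trans hD
  constructor
  · have h1 := (Complex.abs_re_le_norm (tc u - tc v)).trans h
    rw [tc_eq, tc_eq, Complex.sub_re] at h1
    have h2 : |(u.re : ℝ) - (v.re : ℝ)| ≤ D := h1
    exact_mod_cast h2
  · have h1 := (Complex.abs_im_le_norm (tc u - tc v)).trans h
    rw [tc_eq, tc_eq, Complex.sub_im] at h1
    have h2 : |(u.im : ℝ) - (v.im : ℝ)| ≤ D := h1
    exact_mod_cast h2

/-! ### Squares -/

theorem mem_sq (z u : Gi) (L : ℕ) : u ∈ sq z L ↔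
    (z.re ≤ u.re ∧ u.re < z.re + L) ∧ (z.im ≤ u.im ∧ u.im < z.im + L) := by
  unfold Pool.Agent.N912.MS.sq
  rw [mem_image]
  constructor
  · rintro ⟨⟨p, q⟩, hp, rfl⟩
    rw [mem_product, mem_range, mem_range] at hp
    have h1 := hp.1
    have h2 := hp.2
    simp only at h1 h2 ⊢
    refine ⟨⟨?_, ?_⟩, ?_, ?_⟩ <;> omega
  · rintro ⟨⟨h1, h2⟩, h3, h4⟩
    refine ⟨((u.re - z.re).toNat, (u.im - z.im).toNat), ?_, ?_⟩
    · rw [mem_product, mem_range, mem_range]
      simp only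
      constructor <;> omega
    · apply QuadraticAlgebra.ext
      · simp only
        rw [Int.toNat_of_nonneg (by omega)]
        ring
      · simp only
        rw [Int.toNat_of_nonneg (by omega)]
        ring

theorem card_sq (z : Gi) (L : ℕ) : (sq z L).card ≤ L * L := by
  unfold Pool.Agent.N912.MS.sq
  refine card_image_le.trans ?_
  rw [card_product, card_range]

/-- the number of squares which contain `u` -/
theorem card_sq_mem (S : Finset Gi) (u : Gi) (L : ℕ) [DecidablePred fun z => u ∈ sq z L] :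
    (S.filter fun z => u ∈ sq z L).card ≤ L * L := by
  have h : (S.filter fun z => u ∈ sq z L) ⊆
      (range L ×ˢ range L).image (fun p => (⟨u.re - p.1, u.im - p.2⟩ : Gi)) := by
    intro z hz
    have h1 := (mem_sq z u L).1 (mem_filter.1 hz).2
    rw [mem_image]
    refine ⟨((u.re - z.re).toNat, (u.im - z.im).toNat), ?_, ?_⟩
    · rw [mem_product, mem_range, mem_range]
      simp only
      constructor <;> omega
    · apply QuadraticAlgebra.ext
      · simp only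
        rw [Int.toNat_of_nonneg (by omega)]
        ring
      · simp only
        rw [Int.toNat_of_nonneg (by omega)]
        ring
  refine (card_le_card h).trans (card_image_le.trans ?_)
  rw [card_product, card_range]

/-- the points near the boundary -/
theorem card_bd (z : Gi) (L D : ℕ) (B : Finset Gi) (hB : B ⊆ sq z L)
    (h : ∀ u ∈ B, ¬ (z.re + D ≤ u.re ∧ u.re + D < z.re + L ∧ z.im + D ≤ u.im ∧
      u.im + D < z.im + L)) : B.card ≤ 4 * D * L := by
  have hsub : B ⊆ ((range D ×ˢ range L) ∪ (Ico (L - D) L ×ˢ range L) ∪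
      ((range L ×ˢ range D) ∪ (range L ×ˢ Ico (L - D) L))).image
      (fun p => (⟨z.re + p.1, z.im + p.2⟩ : Gi)) := by
    intro u hu
    have h1 := (mem_sq z u L).1 (hB hu)
    have h2 := h u hu
    rw [mem_image]
    refine ⟨((u.re - z.re).toNat, (u.im - z.im).toNat), ?_, ?_⟩
    · simp only [mem_union, mem_product, mem_range, mem_Ico]
      omega
    · apply QuadraticAlgebra.ext
      · simp only
        rw [Int.toNat_of_nonneg (by omega)]
        ring
      · simp only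
        rw [Int.toNat_of_nonneg (by omega)]
        ring
  have e : L - (L - D) ≤ D := by omega
  refine (card_le_card hsub).trans (card_image_le.trans ?_)
  refine (card_union_le _ _).trans ?_
  refine (add_le_add (card_union_le _ _) (card_union_le _ _)).trans ?_
  simp only [card_product, card_range, Nat.card_Ico]
  have h3 : (L - (L - D)) * L ≤ D * L := Nat.mul_le_mul_right _ e
  have h4 : L * (L - (L - D)) ≤ L * D := Nat.mul_le_mul_left _ e
  nlinarith

open scoped Classical in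
/-- the cells -/
noncomputable def cell (n : ℕ) (X : ℝ) (p : ℕ × ℕ) : Finset Gi :=
  (ball 0 1 (Real.exp 1 * X)).filter (fun z => aix n z = (p.1 : ℤ) ∧ lix n X z = (p.2 : ℤ))

theorem mem_cell (n : ℕ) (X : ℝ) (p : ℕ × ℕ) (u : Gi) : u ∈ cell n X p ↔
    (1 ≤ nm u ∧ (nm u : ℝ) ≤ Real.exp 1 * X) ∧ aix n u = (p.1 : ℤ) ∧ lix n X u = (p.2 : ℤ) := by
  unfold cell
  rw [mem_filter, mem_ball hD01]

/-- the index of the cell of `u` -/
noncomputable def ind (n : ℕ) (X : ℝ) (u : Gi) : ℕ × ℕ := ((aix n u).toNat, (lix n X u).toNat)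

theorem aix_mem (n : ℕ) (u : Gi) : 0 ≤ aix n u ∧ aix n u ≤ n := by
  have hπ := Real.pi_pos
  have h1 : -Real.pi < ang u := Complex.neg_pi_lt_arg _
  have h2 : ang u ≤ Real.pi := Complex.arg_le_pi _
  unfold aix
  constructor
  · apply Int.floor_nonneg.2
    have : 0 ≤ ang u + Real.pi := by linarith
    positivity
  · have h3 : (ang u + Real.pi) * n / (2 * Real.pi) ≤ n := by
      rw [div_le_iff₀ (by positivity)]
      have : (0:ℝ) ≤ n := Nat.cast_nonneg n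
      nlinarith
    have h4 : ((⌊(ang u + Real.pi) * n / (2 * Real.pi)⌋ : ℤ) : ℝ) ≤ n := (Int.floor_le _).trans h3
    exact_mod_cast h4

theorem lix_mem (n : ℕ) (hn : 1 ≤ n) (X : ℝ) (hX : 0 < X) (u : Gi) (h1 : X ≤ nm u)
    (h2 : (nm u : ℝ) < Real.exp 1 * X) : 0 ≤ lix n X u ∧ lix n X u < n := by
  have hn0 : (0 : ℝ) < n := by exact_mod_cast hn
  have hu0 : (0 : ℝ) < nm u := lt_of_lt_of_le hX h1
  have h3 : Real.log X ≤ Real.log (nm u) := Real.log_le_log hX h1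
  have h4 : Real.log (nm u) < 1 + Real.log X := by
    have := Real.log_lt_log hu0 h2
    rwa [Real.log_mul (Real.exp_pos 1).ne' hX.ne', Real.log_exp] at this
  unfold lix
  constructor
  · apply Int.floor_nonneg.2
    have : 0 ≤ Real.log (nm u) - Real.log X := by linarith
    positivity
  · rw [Int.floor_lt]
    push_cast
    nlinarith

theorem mem_cell_ind (n : ℕ) (hn : 1 ≤ n) (X : ℝ) (hX : 0 < X) (u : Gi) (h1 : X ≤ nm u)
    (h2 : (nm u : ℝ) < Real.exp 1 * X) :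
    ind n X u ∈ range (n + 1) ×ˢ range n ∧ u ∈ cell n X (ind n X u) := by
  have ha := aix_mem n u
  have hl := lix_mem n hn X hX u h1 h2
  have hu0 : (0 : ℝ) < nm u := lt_of_lt_of_le hX h1
  have hu1 : 1 ≤ nm u := by exact_mod_cast hu0
  unfold ind
  refine ⟨?_, ?_⟩
  · rw [mem_product, mem_range, mem_range]
    simp only
    constructor <;> omega
  · rw [mem_cell]
    refine ⟨⟨hu1, h2.le⟩, ?_, ?_⟩
    · simp only
      rw [Int.toNat_of_nonneg ha.1]
    · simp only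
      rw [Int.toNat_of_nonneg hl.1]

open scoped Classical in
/-- one square -/
theorem one_sq (f : Gi → ℝ) (hf : ∀ z, |f z| ≤ 1) (n : ℕ) (hn : 1 ≤ n) (X : ℝ) (hX : 0 < X)
    (D : ℕ) (hD : 12 * Real.sqrt X / n ≤ D) (L : ℕ) (z : Gi)
    (hz : ∀ u ∈ sq z L, X ≤ nm u ∧ (nm u : ℝ) < Real.exp 1 * X) :
    |∑ u ∈ sq z L, f u| ≤ ∑ p ∈ range (n + 1) ×ˢ range n,
      (if cell n X p ⊆ sq z L then |∑ u ∈ cell n X p, f u| else 0) + 4 * D * L := by
  have hm : ∀ u ∈ sq z L, ind n X u ∈ range (n + 1) ×ˢ range n := fun u hu =>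
    (mem_cell_ind n hn X hX u (hz u hu).1 (hz u hu).2).1
  have hc : ∀ u ∈ sq z L, u ∈ cell n X (ind n X u) := fun u hu =>
    (mem_cell_ind n hn X hX u (hz u hu).1 (hz u hu).2).2
  -- the boundary
  set B := (sq z L).filter (fun u => ¬ cell n X (ind n X u) ⊆ sq z L) with hB
  have hBc : B.card ≤ 4 * D * L := by
    refine card_bd z L D B (filter_subset _ _) ?_
    intro u hu hin
    have hu' := mem_filter.1 hu
    apply hu'.2
    intro v hv
    have hcu := (mem_cell n X _ u).1 (hc u hu'.1)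
    have hcv := (mem_cell n X _ v).1 hv
    have h1 := diam_re n hn X hX D hD u v hcu.1.1 hcv.1.1 hcu.1.2 hcv.1.2
      (hcu.2.1.trans hcv.2.1.symm) (hcu.2.2.trans hcv.2.2.symm)
    have h2 := abs_le.1 h1.1
    have h3 := abs_le.1 h1.2
    rw [mem_sq]
    refine ⟨⟨?_, ?_⟩, ?_, ?_⟩ <;> omega
  rw [← sum_fiberwise_of_maps_to hm]
  refine (abs_sum_le_sum_abs _ _).trans ?_
  have hBs : (B.card : ℝ) = ∑ p ∈ range (n + 1) ×ˢ range n,
      ((B.filter fun u => ind n X u = p).card : ℝ) := by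
    rw [card_eq_sum_card_fiberwise (f := ind n X) (t := range (n + 1) ×ˢ range n)]
    · push_cast
      rfl
    · intro u hu
      exact hm u (mem_filter.1 (mem_coe.1 hu)).1
  have hBR : (B.card : ℝ) ≤ 4 * D * L := by exact_mod_cast hBc
  refine le_trans ?_ (add_le_add_right hBR _)
  rw [hBs, ← sum_add_distrib]
  refine sum_le_sum fun p hp => ?_
  by_cases hsub : cell n X p ⊆ sq z L
  · rw [if_pos hsub]
    have e : (sq z L).filter (fun u => ind n X u = p) = cell n X p := by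
      apply Finset.ext
      intro u
      rw [mem_filter]
      constructor
      · rintro ⟨h1, rfl⟩
        exact hc u h1
      · intro h
        refine ⟨hsub h, ?_⟩
        have h1 := (mem_cell n X p u).1 h
        unfold ind
        rw [h1.2.1, h1.2.2]
        simp
    rw [e]
    have : (0 : ℝ) ≤ ((B.filter fun u => ind n X u = p).card : ℝ) := Nat.cast_nonneg _
    linarith
  · rw [if_neg hsub, zero_add]
    have e : (sq z L).filter (fun u => ind n X u = p) = B.filter fun u => ind n X u = p := by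
      apply Finset.ext
      intro u
      rw [mem_filter, mem_filter, hB, mem_filter]
      constructor
      · rintro ⟨h1, rfl⟩
        exact ⟨⟨h1, hsub⟩, rfl⟩
      · rintro ⟨⟨h1, -⟩, h2⟩
        exact ⟨h1, h2⟩
    rw [e]
    refine (abs_sum_le_sum_abs _ _).trans ?_
    refine (sum_le_card_nsmul _ _ 1 fun u _ => hf u).trans (le_of_eq ?_)
    simp

open scoped Classical in
/-- the squares in one annulus -/
theorem one_ann (f : Gi → ℝ) (hf : ∀ z, |f z| ≤ 1) (n : ℕ) (hn : 1 ≤ n) (X : ℝ) (hX : 0 < X)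
    (D : ℕ) (hD : 12 * Real.sqrt X / n ≤ D) (L : ℕ) (S : Finset Gi)
    (hS : ∀ z ∈ S, ∀ u ∈ sq z L, X ≤ nm u ∧ (nm u : ℝ) < Real.exp 1 * X) :
    ∑ z ∈ S, |∑ u ∈ sq z L, f u| ≤
      (L : ℝ) ^ 2 * (∑ p ∈ range (n + 1) ×ˢ range n, |∑ u ∈ cell n X p, f u|) +
        S.card * (4 * D * L) := by
  refine (sum_le_sum fun z hz => one_sq f hf n hn X hX D hD L z (hS z hz)).trans ?_
  rw [sum_add_distrib, sum_const, nsmul_eq_mul, sum_comm, mul_sum]
  refine add_le_add_left (sum_le_sum fun p _ => ?_) _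
  rcases (cell n X p).eq_empty_or_nonempty with he | ⟨u, hu⟩
  · rw [he]
    simp
  · rw [← sum_filter, sum_const, nsmul_eq_mul]
    refine mul_le_mul_of_nonneg_right ?_ (abs_nonneg _)
    have h1 : (S.filter fun z => cell n X p ⊆ sq z L).card ≤ L * L := by
      refine (card_le_card ?_).trans (card_sq_mem S u L)
      intro z hz
      exact mem_filter.2 ⟨(mem_filter.1 hz).1, (mem_filter.1 hz).2 hu⟩
    have h2 : ((S.filter fun z => cell n X p ⊆ sq z L).card : ℝ) ≤ L * L := by exact_mod_cast h1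
    rw [pow_two]
    exact h2

/-! ### The box -/

theorem mem_bx2 (R : ℕ) (z : Gi) : z ∈ bx2 R ↔
    (-(R : ℤ) ≤ z.re ∧ z.re ≤ R) ∧ (-(R : ℤ) ≤ z.im ∧ z.im ≤ R) := by
  unfold bx2
  rw [mem_image]
  constructor
  · rintro ⟨⟨p, q⟩, hp, rfl⟩
    rw [mem_product, mem_Icc, mem_Icc] at hp
    exact hp
  · intro h
    exact ⟨(z.re, z.im), by rw [mem_product, mem_Icc, mem_Icc]; exact h, rfl⟩

theorem card_bx2 (R : ℕ) : (bx2 R).card ≤ (2 * R + 1) * (2 * R + 1) := by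
  unfold bx2
  refine card_image_le.trans ?_
  rw [card_product, Int.card_Icc]
  have : ((R : ℤ) + 1 - -(R : ℤ)).toNat = 2 * R + 1 := by omega
  rw [this]

theorem choose_n (h X : ℝ) (hh : 1 ≤ h) (hX : h ≤ X) : ∃ n : ℕ, 1 ≤ n ∧ (n : ℝ) ^ 2 * h ≤ X ∧
    12 * Real.sqrt X / n ≤ 24 * Real.sqrt h := by
  have hh0 : 0 < h := by linarith
  have hX0 : 0 < X := by linarith
  set y := Real.sqrt (X / h) with hy
  have hy1 : 1 ≤ y := by
    rw [hy, Real.one_le_sqrt, one_le_div hh0]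
    exact hX
  have hn1 : 1 ≤ ⌊y⌋₊ := (Nat.one_le_floor_iff y).2 hy1
  have hn2 : (⌊y⌋₊ : ℝ) ≤ y := Nat.floor_le (by linarith)
  have hn3 : y < ⌊y⌋₊ + 1 := Nat.lt_floor_add_one y
  have hn1R : (1 : ℝ) ≤ ⌊y⌋₊ := by exact_mod_cast hn1
  refine ⟨⌊y⌋₊, hn1, ?_, ?_⟩
  · have h1 : (⌊y⌋₊ : ℝ) ^ 2 ≤ y ^ 2 := by gcongr
    have h2 : y ^ 2 = X / h := Real.sq_sqrt (by positivity)
    rw [h2] at h1
    calc (⌊y⌋₊ : ℝ) ^ 2 * h ≤ X / h * h := by gcongr
      _ = X := by field_simp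
  · rw [div_le_iff₀ (by linarith)]
    have h3 : Real.sqrt X = y * Real.sqrt h := by
      rw [hy, ← Real.sqrt_mul (by positivity)]
      congr 1
      field_simp
    have h4 : 0 ≤ Real.sqrt h := Real.sqrt_nonneg _
    rw [h3]
    nlinarith [mul_nonneg h4 (by linarith : (0:ℝ) ≤ 2 * ⌊y⌋₊ - y)]

/-- the squares away from the origin lie in one of the annuli -/
theorem exists_ann (δ : ℝ) (hδ : 0 < δ) (M L R : ℕ) (hM : Real.exp (-(M : ℝ) / 2) ≤ δ / 10)
    (hL : 1 ≤ L) (hLR : L ≤ R) (hR : 30 * (L : ℝ) ≤ δ * R) (z : Gi) (hz : z ∈ bx2 R)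
    (hzδ : δ * (R : ℝ) ^ 2 ≤ nm z) : ∃ m ∈ range (M + 1), ∀ u ∈ sq z L,
      8 * (R : ℝ) ^ 2 * Real.exp (-(m : ℝ) / 2) ≤ nm u ∧
      (nm u : ℝ) < Real.exp 1 * (8 * (R : ℝ) ^ 2 * Real.exp (-(m : ℝ) / 2)) := by
  have hL1 : (1 : ℝ) ≤ L := by exact_mod_cast hL
  have hLRr : (L : ℝ) ≤ R := by exact_mod_cast hLR
  have hR1 : (1 : ℝ) ≤ R := by linarith
  have hz' := (mem_bx2 R z).1 hz
  have hre1 : -(R : ℝ) ≤ z.re := by exact_mod_cast hz'.1.1
  have hre2 : (z.re : ℝ) ≤ R := by exact_mod_cast hz'.1.2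
  have him1 : -(R : ℝ) ≤ z.im := by exact_mod_cast hz'.2.1
  have him2 : (z.im : ℝ) ≤ R := by exact_mod_cast hz'.2.2
  have ha : 0 < (nm z : ℝ) := by
    have : 0 < δ * (R : ℝ) ^ 2 := by positivity
    linarith
  have ha2 : (nm z : ℝ) ≤ 2 * (R : ℝ) ^ 2 := by
    rw [nmR]
    nlinarith
  -- the variation of the norm
  have hvar : ∀ u ∈ sq z L, |(nm u : ℝ) - nm z| ≤ nm z / 5 := by
    intro u hu
    have hu' := (mem_sq z u L).1 hu
    have e1 : (z.re : ℝ) ≤ u.re := by exact_mod_cast hu'.1.1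
    have e2 : (u.re : ℝ) < z.re + L := by exact_mod_cast hu'.1.2
    have e3 : (z.im : ℝ) ≤ u.im := by exact_mod_cast hu'.2.1
    have e4 : (u.im : ℝ) < z.im + L := by exact_mod_cast hu'.2.2
    have h1 : |(nm u : ℝ) - nm z| ≤ 6 * R * L := by
      rw [nmR, nmR]
      have f1 : |((u.re : ℝ) - z.re)| ≤ L := by rw [abs_le]; constructor <;> linarith
      have f2 : |((u.im : ℝ) - z.im)| ≤ L := by rw [abs_le]; constructor <;> linarith
      have f3 : |((u.re : ℝ) + z.re)| ≤ 3 * R := by rw [abs_le]; constructor <;> linarith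
      have f4 : |((u.im : ℝ) + z.im)| ≤ 3 * R := by rw [abs_le]; constructor <;> linarith
      have e : (u.re : ℝ) ^ 2 + (u.im : ℝ) ^ 2 - ((z.re : ℝ) ^ 2 + (z.im : ℝ) ^ 2) =
          (u.re + z.re) * (u.re - z.re) + (u.im + z.im) * (u.im - z.im) := by ring
      rw [e]
      refine (abs_add_le _ _).trans ?_
      rw [abs_mul, abs_mul]
      have g1 := mul_le_mul f3 f1 (abs_nonneg _) (by positivity)
      have g2 := mul_le_mul f4 f2 (abs_nonneg _) (by positivity)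
      linarith
    have h2 : 6 * (R : ℝ) * L ≤ δ * (R : ℝ) ^ 2 / 5 := by nlinarith
    linarith
  -- the annulus
  have hex : ∃ m : ℕ, 8 * (R : ℝ) ^ 2 * Real.exp (-(m : ℝ) / 2) ≤ 4 / 5 * nm z := by
    refine ⟨M, ?_⟩
    calc 8 * (R : ℝ) ^ 2 * Real.exp (-(M : ℝ) / 2) ≤ 8 * (R : ℝ) ^ 2 * (δ / 10) := by gcongr
      _ = 4 / 5 * (δ * (R : ℝ) ^ 2) := by ring
      _ ≤ _ := by gcongr
  classical
  set m := Nat.find hex with hm
  have hm1 : 8 * (R : ℝ) ^ 2 * Real.exp (-(m : ℝ) / 2) ≤ 4 / 5 * nm z := Nat.find_spec hex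
  have hmM : m ≤ M := by
    refine Nat.find_min' hex ?_
    calc 8 * (R : ℝ) ^ 2 * Real.exp (-(M : ℝ) / 2) ≤ 8 * (R : ℝ) ^ 2 * (δ / 10) := by gcongr
      _ = 4 / 5 * (δ * (R : ℝ) ^ 2) := by ring
      _ ≤ _ := by gcongr
  have hm0 : m ≠ 0 := by
    intro h0
    rw [h0] at hm1
    simp only [Nat.cast_zero, neg_zero, zero_div, Real.exp_zero, mul_one] at hm1
    nlinarith
  obtain ⟨m', hm'⟩ : ∃ m', m = m' + 1 := ⟨m - 1, by omega⟩
  have hmin : ¬ 8 * (R : ℝ) ^ 2 * Real.exp (-(m' : ℝ) / 2) ≤ 4 / 5 * nm z :=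
    Nat.find_min hex (by omega)
  rw [not_le] at hmin
  refine ⟨m, mem_range.2 (by omega), fun u hu => ?_⟩
  have hv := abs_le.1 (hvar u hu)
  refine ⟨by linarith [hv.1], ?_⟩
  have e1 : Real.exp 1 * (8 * (R : ℝ) ^ 2 * Real.exp (-(m : ℝ) / 2)) =
      Real.exp (1 / 2) * (8 * (R : ℝ) ^ 2 * Real.exp (-(m' : ℝ) / 2)) := by
    have : Real.exp 1 * Real.exp (-(m : ℝ) / 2) = Real.exp (1 / 2) * Real.exp (-(m' : ℝ) / 2) := by
      rw [← Real.exp_add, ← Real.exp_add]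
      congr 1
      rw [hm']
      push_cast
      ring
    linear_combination (8 * (R : ℝ) ^ 2) * this
  rw [e1]
  have h3 : (3 / 2 : ℝ) ≤ Real.exp (1 / 2) := by
    have := Real.add_one_le_exp (1 / 2 : ℝ)
    linarith
  have hpos : 0 < 8 * (R : ℝ) ^ 2 * Real.exp (-(m' : ℝ) / 2) := by positivity
  nlinarith [hv.2]

open scoped Classical in
theorem sqb : S_SQB := by
  intro f hf H ε hε
  set δ : ℝ := min (ε / 27) 1 with hδ
  have hδ0 : 0 < δ := lt_min (by positivity) one_pos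
  have hδ1 : δ ≤ 1 := min_le_right _ _
  have hδε : 27 * δ ≤ ε := by
    have := min_le_left (ε / 27) 1
    linarith
  obtain ⟨M, hM⟩ : ∃ M : ℕ, Real.exp (-(M : ℝ) / 2) ≤ δ / 10 := by
    refine ⟨⌈2 * Real.log (10 / δ)⌉₊, ?_⟩
    have h1 := Nat.le_ceil (2 * Real.log (10 / δ))
    have h2 : -((⌈2 * Real.log (10 / δ)⌉₊ : ℕ) : ℝ) / 2 ≤ -Real.log (10 / δ) := by linarith
    refine (Real.exp_le_exp.2 h2).trans (le_of_eq ?_)
    rw [Real.exp_neg, Real.exp_log (by positivity), inv_div]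
  set ε' : ℝ := ε / (24 * (M + 1)) with hε'
  obtain ⟨h, hh, X₀, HX⟩ := H ε' (by positivity)
  set D : ℕ := ⌈24 * Real.sqrt h⌉₊ with hD
  refine ⟨⌈108 * ((M : ℝ) + 1) * D / ε⌉₊ + 1, fun L hL => ?_⟩
  have hL1 : 1 ≤ L := by omega
  have hL1R : (1 : ℝ) ≤ L := by exact_mod_cast hL1
  have hLD : 108 * ((M : ℝ) + 1) * D ≤ ε * L := by
    have h1 := Nat.le_ceil (108 * ((M : ℝ) + 1) * D / ε)
    have h2 : (⌈108 * ((M : ℝ) + 1) * D / ε⌉₊ : ℝ) ≤ L := by
      have : ⌈108 * ((M : ℝ) + 1) * D / ε⌉₊ ≤ L := by omega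
      exact_mod_cast this
    have h3 := h1.trans h2
    rw [div_le_iff₀ hε] at h3
    linarith
  refine ⟨⌈max X₀ h * Real.exp ((M : ℝ) / 2)⌉₊ + ⌈30 * (L : ℝ) / δ⌉₊ + ⌈1 / δ⌉₊ + L, fun R hR => ?_⟩
  have hLR : L ≤ R := by omega
  have hLRr : (L : ℝ) ≤ R := by exact_mod_cast hLR
  have hR1 : (1 : ℝ) ≤ R := hL1R.trans hLRr
  have hR2 : 30 * (L : ℝ) ≤ δ * R := by
    have h1 := Nat.le_ceil (30 * (L : ℝ) / δ)
    have h2 : (⌈30 * (L : ℝ) / δ⌉₊ : ℝ) ≤ R := by
      have : ⌈30 * (L : ℝ) / δ⌉₊ ≤ R := by omega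
      exact_mod_cast this
    have h3 := h1.trans h2
    rw [div_le_iff₀ hδ0] at h3
    linarith
  have hR3 : 1 ≤ δ * R := by
    have h1 := Nat.le_ceil (1 / δ)
    have h2 : (⌈1 / δ⌉₊ : ℝ) ≤ R := by
      have : ⌈1 / δ⌉₊ ≤ R := by omega
      exact_mod_cast this
    have h3 := h1.trans h2
    rw [div_le_iff₀ hδ0] at h3
    linarith
  have hR4 : max X₀ h * Real.exp ((M : ℝ) / 2) ≤ R := by
    have h1 := Nat.le_ceil (max X₀ h * Real.exp ((M : ℝ) / 2))
    have h2 : (⌈max X₀ h * Real.exp ((M : ℝ) / 2)⌉₊ : ℝ) ≤ R := by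
      have : ⌈max X₀ h * Real.exp ((M : ℝ) / 2)⌉₊ ≤ R := by omega
      exact_mod_cast this
    exact h1.trans h2
  set X : ℕ → ℝ := fun m => 8 * (R : ℝ) ^ 2 * Real.exp (-(m : ℝ) / 2) with hXdef
  have hX8 : ∀ m, X m ≤ 8 * (R : ℝ) ^ 2 := by
    intro m
    simp only [hXdef]
    have : Real.exp (-(m : ℝ) / 2) ≤ 1 := by
      rw [Real.exp_le_one_iff]
      have : (0 : ℝ) ≤ m := Nat.cast_nonneg m
      linarith
    have h8 : (0 : ℝ) ≤ 8 * (R : ℝ) ^ 2 := by positivity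
    nlinarith
  have hXm : ∀ m ∈ range (M + 1), max X₀ h ≤ X m := by
    intro m hm
    have hmM : (m : ℝ) ≤ M := by
      have : m ≤ M := by
        have := mem_range.1 hm
        omega
      exact_mod_cast this
    have h1 : Real.exp (-(M : ℝ) / 2) ≤ Real.exp (-(m : ℝ) / 2) := Real.exp_le_exp.2 (by linarith)
    have h2 : max X₀ h ≤ R * Real.exp (-(M : ℝ) / 2) := by
      have h3 : max X₀ h * Real.exp ((M : ℝ) / 2) * Real.exp (-(M : ℝ) / 2) ≤
          R * Real.exp (-(M : ℝ) / 2) := by gcongr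
      have h4 : Real.exp ((M : ℝ) / 2) * Real.exp (-(M : ℝ) / 2) = 1 := by
        rw [← Real.exp_add]
        have : (M : ℝ) / 2 + -(M : ℝ) / 2 = 0 := by ring
        rw [this, Real.exp_zero]
      rwa [mul_assoc, h4, mul_one] at h3
    refine h2.trans ?_
    simp only [hXdef]
    have h5 : (R : ℝ) ≤ 8 * (R : ℝ) ^ 2 := by nlinarith
    gcongr
  have hcard : ((bx2 R).card : ℝ) ≤ 9 * (R : ℝ) ^ 2 := by
    have h1 : ((bx2 R).card : ℝ) ≤ (2 * R + 1) * (2 * R + 1) := by exact_mod_cast card_bx2 R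
    nlinarith
  -- one annulus
  set g : Gi → ℝ := fun z => |∑ u ∈ sq z L, f u| with hg
  have hg0 : ∀ z, 0 ≤ g z := fun z => abs_nonneg _
  have hgL : ∀ z, g z ≤ (L : ℝ) ^ 2 := by
    intro z
    refine (abs_sum_le_sum_abs _ _).trans ?_
    refine (sum_le_card_nsmul _ _ 1 fun u _ => hf u).trans ?_
    rw [nsmul_eq_mul, mul_one, pow_two]
    exact_mod_cast card_sq z L
  have hone : ∀ m ∈ range (M + 1), ∑ z ∈ (bx2 R).filter (fun z => ∀ u ∈ sq z L,
      X m ≤ nm u ∧ (nm u : ℝ) < Real.exp 1 * X m), g z ≤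
      (L : ℝ) ^ 2 * (ε' * (8 * (R : ℝ) ^ 2)) + 9 * (R : ℝ) ^ 2 * (4 * D * L) := by
    intro m hm
    have hXh := (le_max_right _ _).trans (hXm m hm)
    have hX0' := (le_max_left _ _).trans (hXm m hm)
    have hXpos : 0 < X m := by linarith
    obtain ⟨n, hn1, hn2, hn3⟩ := choose_n h (X m) hh hXh
    have h1 := one_ann f hf n hn1 (X m) hXpos D (hn3.trans (Nat.le_ceil _)) L
      ((bx2 R).filter (fun z => ∀ u ∈ sq z L, X m ≤ nm u ∧ (nm u : ℝ) < Real.exp 1 * X m))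
      (fun z hz => (mem_filter.1 hz).2)
    refine h1.trans ?_
    have h2 := HX (X m) hX0' n hn1 hn2
    have h3 : ∑ p ∈ range (n + 1) ×ˢ range n, |∑ u ∈ cell n (X m) p, f u| ≤ ε' * X m := by
      rw [sum_product]
      exact h2
    have h4 : ε' * X m ≤ ε' * (8 * (R : ℝ) ^ 2) := by
      have : 0 ≤ ε' := by positivity
      exact mul_le_mul_of_nonneg_left (hX8 m) this
    have h5 : (((bx2 R).filter (fun z => ∀ u ∈ sq z L, X m ≤ nm u ∧
        (nm u : ℝ) < Real.exp 1 * X m)).card : ℝ) ≤ 9 * (R : ℝ) ^ 2 := by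
      refine le_trans ?_ hcard
      exact_mod_cast card_filter_le _ _
    have h6 := h3.trans h4
    gcongr
  -- small norms
  have hsmall : ∑ z ∈ (bx2 R).filter (fun z => (nm z : ℝ) < δ * (R : ℝ) ^ 2), g z ≤
      9 * δ * (R : ℝ) ^ 2 * (L : ℝ) ^ 2 := by
    set k : ℕ := ⌊Real.sqrt (δ * (R : ℝ) ^ 2)⌋₊ with hk
    have hs0 : 0 ≤ δ * (R : ℝ) ^ 2 := by positivity
    have hs1 : 1 ≤ Real.sqrt (δ * (R : ℝ) ^ 2) := by
      rw [Real.one_le_sqrt]
      nlinarith
    have hk1 : (k : ℝ) ≤ Real.sqrt (δ * (R : ℝ) ^ 2) := Nat.floor_le (by linarith)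
    have hsub : (bx2 R).filter (fun z => (nm z : ℝ) < δ * (R : ℝ) ^ 2) ⊆ bx2 k := by
      intro z hz
      have h1 := (mem_filter.1 hz).2
      rw [nmR] at h1
      have key : ∀ x : ℤ, (x : ℝ) ^ 2 ≤ δ * (R : ℝ) ^ 2 → -(k : ℤ) ≤ x ∧ x ≤ k := by
        intro x hx
        have h2 : |(x : ℝ)| ≤ Real.sqrt (δ * (R : ℝ) ^ 2) := Real.abs_le_sqrt hx
        have h3 : x.natAbs ≤ k := by
          apply Nat.le_floor
          rw [Nat.cast_natAbs]
          push_cast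
          exact h2
        omega
      rw [mem_bx2]
      exact ⟨key z.re (by nlinarith [sq_nonneg (z.im : ℝ)]),
        key z.im (by nlinarith [sq_nonneg (z.re : ℝ)])⟩
    refine (sum_le_card_nsmul _ _ _ fun z _ => hgL z).trans ?_
    rw [nsmul_eq_mul]
    refine mul_le_mul_of_nonneg_right ?_ (by positivity)
    have h2 : (((bx2 R).filter (fun z => (nm z : ℝ) < δ * (R : ℝ) ^ 2)).card : ℝ) ≤
        (2 * k + 1) * (2 * k + 1) := by
      exact_mod_cast (card_le_card hsub).trans (card_bx2 k)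
    refine h2.trans ?_
    have h3 : Real.sqrt (δ * (R : ℝ) ^ 2) * Real.sqrt (δ * (R : ℝ) ^ 2) = δ * (R : ℝ) ^ 2 :=
      Real.mul_self_sqrt hs0
    have h4 : (0 : ℝ) ≤ k := Nat.cast_nonneg k
    nlinarith
  -- the covering
  have hcov : ∑ z ∈ bx2 R, g z ≤ ∑ z ∈ (bx2 R).filter (fun z => (nm z : ℝ) < δ * (R : ℝ) ^ 2), g z +
      ∑ m ∈ range (M + 1), ∑ z ∈ (bx2 R).filter (fun z => ∀ u ∈ sq z L,
      X m ≤ nm u ∧ (nm u : ℝ) < Real.exp 1 * X m), g z := by
    simp_rw [sum_filter]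
    rw [sum_comm, ← sum_add_distrib]
    refine sum_le_sum fun z hz => ?_
    have hnn : ∀ m ∈ range (M + 1), (0 : ℝ) ≤ if ∀ u ∈ sq z L,
        X m ≤ nm u ∧ (nm u : ℝ) < Real.exp 1 * X m then g z else 0 := by
      intro m _
      split_ifs
      · exact hg0 z
      · exact le_rfl
    by_cases hsm : (nm z : ℝ) < δ * (R : ℝ) ^ 2
    · rw [if_pos hsm]
      have := sum_nonneg hnn
      linarith
    · rw [if_neg hsm, zero_add]
      obtain ⟨m, hm, hmu⟩ := exists_ann δ hδ0 M L R hM hL1 hLR hR2 z hz (not_lt.1 hsm)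
      refine le_trans ?_ (single_le_sum hnn hm)
      rw [if_pos hmu]
  have hsum : ∑ m ∈ range (M + 1), ∑ z ∈ (bx2 R).filter (fun z => ∀ u ∈ sq z L,
      X m ≤ nm u ∧ (nm u : ℝ) < Real.exp 1 * X m), g z ≤
      ((M : ℝ) + 1) * ((L : ℝ) ^ 2 * (ε' * (8 * (R : ℝ) ^ 2)) + 9 * (R : ℝ) ^ 2 * (4 * D * L)) := by
    refine (sum_le_card_nsmul _ _ _ hone).trans (le_of_eq ?_)
    rw [card_range, nsmul_eq_mul]
    push_cast
    ring
  have hgoal : ∑ z ∈ bx2 R, |∑ u ∈ sq z L, (f u - 0)| = ∑ z ∈ bx2 R, g z := by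
    simp only [hg, sub_zero]
  rw [hgoal]
  refine hcov.trans ((add_le_add hsmall hsum).trans ?_)
  have hMp : (0 : ℝ) < (M : ℝ) + 1 := by positivity
  have e1 : ((M : ℝ) + 1) * ((L : ℝ) ^ 2 * (ε' * (8 * (R : ℝ) ^ 2))) =
      ε / 3 * (L : ℝ) ^ 2 * (R : ℝ) ^ 2 := by
    rw [hε']
    field_simp
    ring
  have e2 : ((M : ℝ) + 1) * (9 * (R : ℝ) ^ 2 * (4 * D * L)) ≤ ε / 3 * (L : ℝ) ^ 2 * (R : ℝ) ^ 2 := by
    have h1 : 36 * ((M : ℝ) + 1) * D ≤ ε / 3 * L := by linarith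
    have h2 : 36 * ((M : ℝ) + 1) * D * (L * (R : ℝ) ^ 2) ≤ ε / 3 * L * (L * (R : ℝ) ^ 2) := by gcongr
    nlinarith
  have e3 : 9 * δ * (R : ℝ) ^ 2 * (L : ℝ) ^ 2 ≤ ε / 3 * (L : ℝ) ^ 2 * (R : ℝ) ^ 2 := by
    have h1 : 9 * δ ≤ ε / 3 := by linarith
    have h2 : 9 * δ * ((R : ℝ) ^ 2 * (L : ℝ) ^ 2) ≤ ε / 3 * ((R : ℝ) ^ 2 * (L : ℝ) ^ 2) := by gcongr
    nlinarith
  rw [mul_add, e1]
  linarith

end Pool.Agent.N391.MS
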